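import Pool.Agent.H.MP_c527bb_lc.A
import Pool.Agent.Lib.helper22.FreeSL

set_option autoImplicit false

namespace Pool.Agent.Results.MP_c527bb_lc.NotDef

open Pool.Agent.H.MP_c527bb_lc Filter Relation
open FreeGroup hiding map_mul map_inv map_one

theorem groups : ∃ (Γ : ℕ → Type) (_ : ∀ n, Group (Γ n)) (_ : ∀ n, Finite (Γ n))
    (π : ∀ n, F →* Γ n), (∀ n, Function.Surjective (π n)) ∧
    (∀ g ≠ 1, ∀ᶠ n in hyperfilter ℕ, π n g ≠ 1) ∧ ∀ n, π n (of false ^ (2 * n + 1)) = 1 := by
  obtain ⟨ρ, h1, h2⟩ := Pool.Agent.Lib.NB.exists_free Bool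
  let π : ∀ n : ℕ, F →* Matrix.SpecialLinearGroup (Fin 2) (ZMod (2 * n + 1)) := fun n =>
    (Matrix.SpecialLinearGroup.map (Int.castRingHom _)).comp ρ
  have e : ∀ n g, π n g = 1 ↔ ∀ i j, ((2 * n + 1 : ℕ) : ℤ) ∣ ((ρ g).1 - 1) i j := fun n g => by
    rw [Matrix.SpecialLinearGroup.ext_iff]
    refine forall₂_congr fun i j => ?_
    rw [← ZMod.intCast_zmod_eq_zero_iff_dvd, Matrix.sub_apply, Int.cast_sub, sub_eq_zero]
    simp [π, Matrix.one_apply]
  refine ⟨fun n => (π n).range, inferInstance, inferInstance, fun n => (π n).rangeRestrict,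
    fun n => (π n).rangeRestrict_surjective, fun g hg => ?_, fun n => Subtype.ext ((e _ _).2 ?_)⟩
  · obtain ⟨i, j, k⟩ : ∃ i j, ((ρ g).1 - 1) i j ≠ 0 := by
      by_contra! c
      exact hg (h1 (Subtype.ext (by simpa using sub_eq_zero.1 (Matrix.ext (N := 0) c))))
    refine hyperfilter_le_cofinite (Nat.cofinite_eq_atTop ▸
      (eventually_ge_atTop (((ρ g).1 - 1) i j).natAbs).mono fun n h q => ?_)
    have := Int.le_of_dvd (abs_pos.2 k) ((dvd_abs _ _).2 ((e _ _).1 (congrArg Subtype.val q) i j))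
    rw [Int.abs_eq_natAbs] at this
    omega
  · obtain ⟨N, h⟩ := h2 false
    intro i j
    rw [← zpow_natCast, h, add_sub_cancel_left, Matrix.smul_apply]
    exact dvd_mul_right ..

theorem noncut {P : Type} [MulAction F P] [Finite P] (o : P) (h : ∀ x, ∃ g : F, x = g • o) :
    ∃ z, ∀ x y, x ≠ z → y ≠ z → ReflTransGen (fun u w => (gr P).Adj u w ∧ u ≠ z ∧ w ≠ z) x y := by
  classical
  have h' : ∀ x, ∃ k, ∃ w : List L, w.length = k ∧ x = mk w • o := fun x =>
    let ⟨g, e⟩ := h x; ⟨_, toWord g, rfl, by rwa [mk_toWord]⟩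
  have : Nonempty P := ⟨o⟩
  obtain ⟨z, hz⟩ := Finite.exists_max fun x => Nat.find (h' x)
  have k : ∀ m x, Nat.find (h' x) = m → x ≠ z →
      ReflTransGen (fun u w => (gr P).Adj u w ∧ u ≠ z ∧ w ≠ z) o x := fun m => by
    induction m using Nat.strong_induction_on with
    | _ m ih =>
      intro x e ne
      obtain ⟨_ | ⟨l, w⟩, e1, e2⟩ := Nat.find_spec (h' x)
      · rw [e2, ← one_eq_mk, one_smul]
      · have : Nat.find (h' (mk w • o)) < Nat.find (h' x) :=
          (Nat.find_min' _ ⟨w, rfl, rfl⟩).trans_lt (by simp [← e1])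
        have q : mk w • o ≠ z := fun q => (q ▸ hz x).not_gt this
        exact (ih _ (e ▸ this) _ rfl q).tail
          ⟨⟨fun r => (r ▸ this).false, l, by rw [e2, mk_cons, mul_smul]⟩, q, ne⟩
  have : Std.Symm fun u w => (gr P).Adj u w ∧ u ≠ z ∧ w ≠ z :=
    ⟨fun _ _ q => ⟨q.1.symm, q.2.2, q.2.1⟩⟩
  exact ⟨z, fun x y hx hy => (Std.Symm.symm _ _ (k _ x rfl hx)).trans (k _ y rfl hy)⟩

theorem big (A : Fam) : ∀ᶠ n in hyperfilter ℕ, 3 ≤ Nat.card (A.X n) := by
  have : (of true : F) * of true ≠ 1 := fun h => by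
    simpa [← pow_two, norm_of_pow] using congrArg FreeGroup.norm h
  refine (((A.free _ (of_ne_one true) A.o).and (A.free _ this A.o)).and
    (A.free _ (of_ne_one true) fun n => (of true : F) • A.o n)).mono fun n ⟨⟨h1, h2⟩, h3⟩ => ?_
  have := Fintype.ofFinite (A.X n)
  rw [Nat.card_eq_fintype_card]
  exact Fintype.two_lt_card_iff.2 ⟨_, _, _, h1.symm, h2.symm, by rw [mul_smul]; exact h3.symm⟩

section
variable {Γ : Type} [Group Γ] (π : F →* Γ)

open Classical in
@[reducible] noncomputable def act : MulAction F (Option (Γ × Bool)) :=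
  MulAction.compHom _ (FreeGroup.lift fun i : Bool =>
    (Equiv.optionCongr ((Equiv.mulLeft (π (of i))).prodCongr (Equiv.refl Bool)) *
      Equiv.swap none (some (1, i)) : Equiv.Perm (Option (Γ × Bool))))

theorem act_spec : ∃ _ : MulAction F (Option (Γ × Bool)),
    (∀ l γ j, gen l • some (γ, j) = some (π (gen l) * γ, j) ∨ gen l • some (γ, j) = none ∧
      j = l.1 ∧ γ = if l.2 then 1 else π (of l.1)) ∧
    ∀ l, gen l • (none : Option (Γ × Bool)) = some (if l.2 then π (of l.1) else 1, l.1) := by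
  classical
  let _ := act π
  have e : ∀ i (x : Option (Γ × Bool)), gen (i, true) • x =
      (Equiv.swap none (some (1, i)) x).map fun p => (π (of i) * p.1, p.2) := fun i x => by
    show (FreeGroup.lift _ (of i) : Equiv.Perm _) x = _
    rw [lift_apply_of]
    rfl
  have e' : ∀ i, gen (i, false) = (gen (i, true))⁻¹ := fun _ => rfl
  refine ⟨act π, ?_, ?_⟩
  · rintro ⟨i, _ | _⟩ γ j
    · by_cases c : (γ, j) = (π (of i), i)
      · obtain ⟨rfl, rfl⟩ := Prod.mk.inj c
        exact .inr ⟨by rw [e', inv_smul_eq_iff, e]; simp, rfl, rfl⟩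
      · refine .inl ?_
        rw [e', inv_smul_eq_iff, e, Equiv.swap_apply_of_ne_of_ne (by simp)]
        · simp [show gen (i, true) = of i from rfl]
        · simpa [inv_mul_eq_one, eq_comm (a := γ), show gen (i, true) = of i from rfl] using c
    · by_cases c : (γ, j) = (1, i)
      · obtain ⟨rfl, rfl⟩ := Prod.mk.inj c
        exact .inr ⟨by rw [e]; simp, rfl, rfl⟩
      · refine .inl ?_
        rw [e, Equiv.swap_apply_of_ne_of_ne (by simp) (by simpa using c)]
        rfl
  · rintro ⟨i, _ | _⟩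
    · rw [e', inv_smul_eq_iff, e]; simp
    · rw [e]; simp
end

theorem result : ¬ ∃ ψ : Fm 0, ∀ (V : Type) [Finite V] (G : SimpleGraph V), 3 ≤ Nat.card V →
    (Sat G ψ ![] ↔ TwoConn G) := by
  rintro ⟨ψ, hψ⟩
  obtain ⟨Γ, _, _, π, h1, h2, h3⟩ := groups
  let aa : ∀ n, MulAction F (Γ n) := fun n => MulAction.compHom _ (π n)
  let A : Fam := @Fam.mk Γ aa _ (fun _ => 1)
    (fun g hg a => (h2 g hg).mono fun n h q => h (mul_eq_right.1 q))
    (fun n x => let ⟨g, e⟩ := h1 n x; ⟨g, by rw [← e]; exact (mul_one _).symm⟩)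
    fun n => ⟨n, (mul_one _).trans (h3 n)⟩
  choose ac a1 a2 using fun n => act_spec (π n)
  have tr : ∀ n (x : Option (Γ n × Bool)), ∃ g : F, x = g • none := by
    rintro n (_ | ⟨γ, j⟩)
    · exact ⟨1, by simp⟩
    obtain ⟨g, rfl⟩ := h1 n γ
    induction g using ind with
    | h1 => exact ⟨gen (j, false), by simp [a2]⟩
    | h2 l g ih =>
      obtain ⟨u, e⟩ := ih
      rcases a1 n l (π n g) j with q | ⟨-, rfl, q⟩
      · exact ⟨gen l * u, by rw [mul_smul, ← e, q, map_mul]⟩
      · refine ⟨gen l, ?_⟩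
        rw [a2, map_mul, q]
        obtain ⟨i, _ | _⟩ := l
        · simp [show gen (i, false) = (of i)⁻¹ from rfl]
        · simp [show gen (i, true) = of i from rfl]
  have f0 : ∀ w ≠ 1, ∀ᶠ n in hyperfilter ℕ, w • (none : Option (Γ n × Bool)) =
      some (π n (w * if (br w).2 then 1 else of (br w).1), (br w).1) := fun w hw => by
    induction w using ind with
    | h1 => exact (hw rfl).elim
    | h2 l v ih =>
      by_cases c : v = 1
      · refine .of_forall fun n => ?_
        rw [c, mul_one, a2, br_gen]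
        obtain ⟨i, _ | _⟩ := l
        · simp [show gen (i, false) = (of i)⁻¹ from rfl]
        · simp [show gen (i, true) = of i from rfl]
      rw [br_mul c hw]
      by_cases d : (br v).1 = l.1
      · refine ((ih c).and (h2 ((if l.2 then 1 else of l.1)⁻¹ * (v * if (br v).2 then 1 else
          of (br v).1)) ?_)).mono fun n ⟨k1, k2⟩ => ?_
        · rw [d, Ne, inv_mul_eq_one]
          obtain ⟨i, b⟩ := l
          have g1 : gen (i, false) = (of i)⁻¹ := rfl
          have g2 : gen (i, true) = of i := rfl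
          cases b <;> cases (br v).2 <;> simp only [g1, g2] at hw <;>
            simp [c, Ne.symm c, inv_mul_eq_one, eq_comm (a := (1 : F))] at hw ⊢
          exacts [hw, fun q => hw (mul_eq_one_comm.1 q)]
        · rw [mul_smul, k1]
          refine (a1 n l _ _).elim (fun q => by rw [q, ← map_mul, mul_assoc]) fun q => (k2 ?_).elim
          rw [map_mul, map_inv, q.2.2, inv_mul_eq_one]
          split_ifs <;> simp
      · refine (ih c).mono fun n k => ?_
        rw [mul_smul, k]
        exact (a1 n l _ _).elim (fun q => by rw [q, ← map_mul, mul_assoc]) fun q => (d q.2.1).elim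
  let B : Fam := @Fam.mk (fun n => Option (Γ n × Bool)) ac _ (fun _ => some (1, true))
    (fun g hg a => by
      by_cases c : ∃ u : F, ∀ᶠ n in hyperfilter ℕ, a n = u • none
      · obtain ⟨u, c⟩ := c
        refine (c.and (f0 (u⁻¹ * g * u) fun q => hg (by
          rwa [mul_eq_one_comm, mul_inv_cancel_left] at q))).mono fun n ⟨k1, k2⟩ q => ?_
        rw [mul_smul, mul_smul, ← k1, q, k1, inv_smul_smul] at k2
        cases k2
      have c' : ∀ u : F, ∀ᶠ n in hyperfilter ℕ, u • a n ≠ none := fun u =>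
        (Ultrafilter.eventually_not.2 fun q => c ⟨u⁻¹, q⟩).mono fun n k q =>
          k (by rw [← q, inv_smul_smul])
      have k : ∀ g : F, ∀ᶠ n in hyperfilter ℕ, ∃ γ j, a n = some (γ, j) ∧
          g • a n = some (π n g * γ, j) := fun g => by
        induction g using ind with
        | h1 => exact (c' 1).mono fun n k => by
                  cases e : a n with
                  | none => exact (k (by simp [e])).elim
                  | some p => exact ⟨p.1, p.2, rfl, by simp⟩
        | h2 l v ih =>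
          refine (ih.and (c' (gen l * v))).mono fun n ⟨⟨γ, j, k1, k2⟩, k3⟩ => ⟨γ, j, k1, ?_⟩
          rw [mul_smul, k2] at k3 ⊢
          exact (a1 n l _ _).elim (fun q => by rw [q, map_mul, mul_assoc]) fun q => (k3 q.1).elim
      refine ((k g).and (h2 g hg)).mono fun n ⟨⟨γ, j, k1, k2⟩, k3⟩ q => k3 ?_
      rw [k2, k1] at q
      simpa using q)
    (fun n x => let ⟨g, e⟩ := tr n x; let ⟨h, e'⟩ := tr n (some (1, true))
      ⟨g * h⁻¹, by rw [e', mul_smul, inv_smul_smul, e]⟩)
    fun n => ⟨n, by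
      have : ∀ m, gen (false, true) ^ m • (some (1, true) : Option (Γ n × Bool)) =
          some (π n (of false ^ m), true) := fun m => by
        induction m with
        | zero => simp
        | succ m ih =>
          rw [pow_succ', mul_smul, ih, pow_succ', map_mul]
          exact (a1 n _ _ _).resolve_right fun q => by simpa using q.2.1
      rw [this, h3]⟩
  have hA : A.T ψ ![] := (big A).mono fun n h => by
    rw [Subsingleton.elim (fun i => _) ![], hψ _ _ h]
    obtain ⟨z0, hz⟩ := noncut (P := Γ n) 1 (A.tr n)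
    intro (z : Γ n) (x : Γ n) (y : Γ n) hx hy
    have := ReflTransGen.lift (p := fun u w => (gr (Γ n)).Adj u w ∧ u ≠ z ∧ w ≠ z)
      (fun u : Γ n => u * z0⁻¹ * z) (fun u w ⟨⟨q1, l, q2⟩, q3, q4⟩ =>
        ⟨⟨by simpa using q1, l, by rw [q2]; show π n _ * _ * _ * _ = π n _ * _; simp [mul_assoc]⟩,
          by simpa [mul_inv_eq_one] using q3, by simpa [mul_inv_eq_one] using q4⟩) _ _
      (hz (x * z⁻¹ * z0 : Γ n) (y * z⁻¹ * z0 : Γ n) (by simpa [mul_inv_eq_one] using hx)
        (by simpa [mul_inv_eq_one] using hy))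
    simp only [Function.onFun, mul_inv_cancel_right, inv_mul_cancel_right] at this
    exact this
  obtain ⟨n, k1, k2⟩ := ((Fam.inv ψ A B _ (piece Fam.fr Fam.fr 1 (A.mk' A.o) (B.mk' B.o)) _ ![]
    (fun i => i.elim0) hA).and (big B)).exists
  rw [Subsingleton.elim (fun i => _) ![], hψ _ _ k2] at k1
  have : ∀ y : Option (Γ n × Bool), ReflTransGen (fun u w => (gr (Option (Γ n × Bool))).Adj u w ∧ u ≠ none ∧
      w ≠ none) (some (1, false)) y → ∃ γ, y = some (γ, false) := fun y h => by
    induction h with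
    | refl => exact ⟨_, rfl⟩
    | tail _ q ih =>
      obtain ⟨γ, rfl⟩ := ih
      obtain ⟨⟨-, l, rfl⟩, -, q⟩ := q
      exact (a1 n l γ false).elim (fun r => ⟨_, r⟩) fun r => (q r.1).elim
  obtain ⟨γ, e⟩ := this _ (k1 none _ (some (1, true)) (by simp) (by simp))
  simp at e

end Pool.Agent.Results.MP_c527bb_lc.NotDef
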